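import Pool.Agent.H61.Cube2

open Filter Topology Pool.Agent.H61.Cube2 in
theorem Pool.Agent.Results.MP_677ad5_pr.SecondLarger.result :
    (¬ ∀ pv pe : ℕ → ℝ, (∀ n, 0 < pv n ∧ pv n ≤ 1) → (∀ n, 0 < pe n ∧ pe n ≤ 1) →
      Tendsto (fun n => pv n * pe n) atTop (𝓝 0) →
      Tendsto (fun n : ℕ => pv n * pe n * n) atTop atTop →
      ∃ ε : ℕ → ℝ, Tendsto ε atTop (𝓝 0) ∧
        Tendsto (fun n => prob n (pv n) (pe n) fun W A => ∃ v ∈ W,
          (1 - ε n) * W.card ≤ (comp A v).card ∧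
          (∀ w ∈ W, w ∉ comp A v → (comp A w).card ≤ mp (pv n * pe n)) ∧
          ∃ w ∈ W, w ∉ comp A v ∧ (comp A w).card = mp (pv n * pe n)) atTop (𝓝 1)) :=
  partC
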